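import Mathlib

/-!
# Definition for `MP_5491ed_gt`: the function space `C_p(X)`
-/

set_option autoImplicit false

namespace Pool.Agent.MP_5491ed_gt

/-- `C_p(X)`: the set of the continuous functions `X → ℝ` with the topology of pointwise
convergence, that is, with the subspace topology (of the subtype) from the product space
`X → ℝ`. -/
abbrev Cp (X : Type*) [TopologicalSpace X] : Type _ := {f : X → ℝ // Continuous f}

end Pool.Agent.MP_5491ed_gt
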