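import Mathlib
import Pool.Agent.Lib.MP_5491ed_gt.Defs

/-!
# Control sets of a homeomorphism `C_p(W) ≃ₜ C_p(Z)`
-/

set_option autoImplicit false

namespace Pool.Agent.MP_5491ed_gt

open Set Filter Topology

section CpBasic

variable {W : Type*} [TopologicalSpace W]

/-- Basic neighbourhoods in `C_p(W)`. -/
theorem cp_nhds (ψ : Cp W) (O : Set (Cp W)) (hO : O ∈ 𝓝 ψ) :
    ∃ (B : Finset W) (δ : ℝ), 0 < δ ∧ ∀ ψ' : Cp W, (∀ b ∈ B, |ψ'.1 b - ψ.1 b| < δ) → ψ' ∈ O := by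
  obtain ⟨T, hT, hTO⟩ := mem_comap.1 ((nhds_induced (Subtype.val : Cp W → W → ℝ) ψ) ▸ hO)
  rw [nhds_pi, Filter.mem_pi] at hT
  obtain ⟨I, hI, t, ht, htT⟩ := hT
  have h1 : ∀ i, ∃ ε > 0, Metric.ball (ψ.1 i) ε ⊆ t i := fun i => Metric.mem_nhds_iff.1 (ht i)
  choose ε hε hεt using h1
  have h2 : ∀ᶠ δ in 𝓝[>] (0 : ℝ), ∀ i ∈ hI.toFinset, δ < ε i :=
    (Filter.eventually_all_finset _).2 fun i _ =>
      Filter.mem_of_superset (Ioo_mem_nhdsGT (hε i)) fun _ hx => hx.2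
  obtain ⟨δ, hδ, hδ0⟩ := (h2.and self_mem_nhdsWithin).exists
  refine ⟨hI.toFinset, δ, hδ0, fun ψ' hψ' => hTO (htT ?_)⟩
  intro i hi
  have hi' : i ∈ hI.toFinset := hI.mem_toFinset.2 hi
  apply hεt i
  rw [Metric.mem_ball, Real.dist_eq]
  exact (hψ' i hi').trans (hδ i hi')

/-- Evaluation is continuous. -/
theorem continuous_eval (w : W) : Continuous fun ψ : Cp W => ψ.1 w :=
  (continuous_apply w).comp continuous_subtype_val

/-- A bump function for a finite set. -/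
theorem exists_bump [T35Space W] (Q : Finset W) (V : Set W) (hV : IsOpen V)
    (hQ : ∀ q ∈ Q, q ∈ V) :
    ∃ u : W → ℝ, Continuous u ∧ (∀ w, 0 ≤ u w) ∧ (∀ w, u w ≤ 1) ∧ (∀ q ∈ Q, u q = 1) ∧
      ∀ w, w ∉ V → u w = 0 := by
  classical
  have h1 : ∀ q : W, ∃ f : W → unitInterval, Continuous f ∧ (q ∈ Q → f q = 0) ∧
      (q ∈ Q → EqOn f 1 Vᶜ) := by
    intro q
    by_cases hq : q ∈ Q
    · obtain ⟨f, hf, h0, h1⟩ := CompletelyRegularSpace.completely_regular_isOpen q V hV (hQ q hq)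
      exact ⟨f, hf, fun _ => h0, fun _ => h1⟩
    · exact ⟨fun _ => 0, continuous_const, fun h => absurd h hq, fun h => absurd h hq⟩
  choose f hf hf0 hf1 using h1
  refine ⟨fun w => 1 - ∏ q ∈ Q, (f q w : ℝ), ?_, ?_, ?_, ?_, ?_⟩
  · exact continuous_const.sub (continuous_finsetProd _ fun q _ =>
      continuous_subtype_val.comp (hf q))
  · intro w
    have : ∏ q ∈ Q, (f q w : ℝ) ≤ 1 := Finset.prod_le_one (fun q _ => (f q w).2.1)
      fun q _ => (f q w).2.2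
    linarith
  · intro w
    have : 0 ≤ ∏ q ∈ Q, (f q w : ℝ) := Finset.prod_nonneg fun q _ => (f q w).2.1
    linarith
  · intro q hq
    have : ∏ q' ∈ Q, (f q' q : ℝ) = 0 := Finset.prod_eq_zero hq (by rw [hf0 q hq]; rfl)
    simp [this]
  · intro w hw
    have : ∏ q ∈ Q, (f q w : ℝ) = 1 := Finset.prod_eq_one fun q hq => by
      rw [hf1 q hq hw]; rfl
    simp [this]

/-- Changing `ψ` into `p` outside of a neighbourhood of a finite set. -/
theorem exists_blend [T35Space W] (ψ p : Cp W) (Q : Finset W) (V : Set W) (hV : IsOpen V)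
    (hQ : ∀ q ∈ Q, q ∈ V) :
    ∃ ψ' : Cp W, (∀ q ∈ Q, ψ'.1 q = ψ.1 q) ∧ (∀ w, w ∉ V → ψ'.1 w = p.1 w) ∧
      ∀ w, |ψ'.1 w - p.1 w| ≤ |ψ.1 w - p.1 w| := by
  obtain ⟨u, hu, hu0, hu1, huQ, huV⟩ := exists_bump Q V hV hQ
  refine ⟨⟨fun w => p.1 w + u w * (ψ.1 w - p.1 w), p.2.add (hu.mul (ψ.2.sub p.2))⟩, ?_, ?_, ?_⟩
  · intro q hq
    simp [huQ q hq]
  · intro w hw
    simp [huV w hw]
  · intro w
    simp only [add_sub_cancel_left, abs_mul, abs_of_nonneg (hu0 w)]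
    exact mul_le_of_le_one_left (abs_nonneg _) (hu1 w)

end CpBasic

section Control

variable {Z W : Type*} [TopologicalSpace Z] [TopologicalSpace W]

/-- The set `A` controls the point `z` (with constant `1 / (m + 1)`). -/
def Ctrl (h : Cp W ≃ₜ Cp Z) (p : Cp W) (m : ℕ) (z : Z) (A : Set W) : Prop :=
  ∀ ψ : Cp W, (∀ a ∈ A, |ψ.1 a - p.1 a| < 1 / ((m : ℝ) + 1)) → |(h ψ).1 z| ≤ 1

theorem Ctrl.mono {h : Cp W ≃ₜ Cp Z} {p : Cp W} {m : ℕ} {z : Z} {A B : Set W}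
    (hA : Ctrl h p m z A) (hAB : A ⊆ B) : Ctrl h p m z B :=
  fun ψ hψ => hA ψ fun a ha => hψ a (hAB ha)

/-- The points controlled by an `n`-tuple. -/
def S (h : Cp W ≃ₜ Cp Z) (p : Cp W) (m n : ℕ) : Set Z :=
  {z | ∃ τ : Fin n → W, Ctrl h p m z (range τ)}

variable (h : Cp W ≃ₜ Cp Z) (p : Cp W)

theorem continuous_value (z : Z) : Continuous fun ψ : Cp W => (h ψ).1 z :=
  (continuous_eval z).comp h.continuous

theorem not_ctrl_empty (m : ℕ) (z : Z) : ¬ Ctrl h p m z ∅ := by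
  intro hc
  have h1 := hc (h.symm ⟨fun _ => 2, continuous_const⟩) (by simp)
  rw [h.apply_symm_apply] at h1
  norm_num at h1

theorem exists_mem_S (hp : ∀ z, (h p).1 z = 0) (z : Z) : ∃ m n, z ∈ S h p m n := by
  have hO : {ψ : Cp W | |(h ψ).1 z| < 1} ∈ 𝓝 p := by
    apply IsOpen.mem_nhds
    · exact isOpen_lt (continuous_value h z).abs continuous_const
    · simp [hp]
  obtain ⟨B, δ, hδ, hB⟩ := cp_nhds p _ hO
  obtain ⟨m, hm⟩ := exists_nat_one_div_lt hδ
  refine ⟨m, B.card, fun i => (B.equivFin.symm i).1, ?_⟩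
  intro ψ hψ
  refine le_of_lt (hB ψ fun b hb => ?_)
  refine (hψ b ⟨B.equivFin ⟨b, hb⟩, by simp⟩).trans hm

/-- The limit lemma. -/
theorem ctrl_limit [T35Space W] {Ω : Type*} {n : ℕ} (m : ℕ) (U : Ultrafilter Ω) (ζ : Ω → Z)
    (τ : Ω → Fin n → W) (hτ : ∀ᶠ ω in (U : Filter Ω), Ctrl h p m (ζ ω) (range (τ ω))) (z : Z)
    (hz : Tendsto ζ U (𝓝 z)) :
    Ctrl h p m z {q | ∃ i, Tendsto (fun ω => τ ω i) U (𝓝 q)} := by
  classical
  intro ψ hψ
  by_contra hlt
  rw [not_le] at hlt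
  have hO : {ψ' : Cp W | 1 < |(h ψ').1 z|} ∈ 𝓝 ψ :=
    IsOpen.mem_nhds (isOpen_lt continuous_const (continuous_value h z).abs) hlt
  obtain ⟨B, δ, hδ, hB⟩ := cp_nhds ψ _ hO
  -- neighbourhoods avoiding the nonconvergent indices
  have h1 : ∀ (b : W) (i : Fin n), ∃ V : Set W, IsOpen V ∧ b ∈ V ∧
      ((∀ q, ¬ Tendsto (fun ω => τ ω i) U (𝓝 q)) → ∀ᶠ ω in (U : Filter Ω), τ ω i ∉ V) := by
    intro b i
    by_cases hi : ∀ q, ¬ Tendsto (fun ω => τ ω i) U (𝓝 q)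
    · have h2 := hi b
      rw [tendsto_nhds] at h2
      push Not at h2
      obtain ⟨V, hV, hbV, hVU⟩ := h2
      refine ⟨V, hV, hbV, fun _ => ?_⟩
      exact Ultrafilter.compl_mem_iff_notMem.2 hVU
    · exact ⟨univ, isOpen_univ, mem_univ _, fun h => absurd h hi⟩
  choose V hVo hVb hVU using h1
  obtain ⟨ψ', hψ'1, hψ'2, hψ'3⟩ := exists_blend ψ p B (⋃ b ∈ B, ⋂ i, V b i)
    (isOpen_biUnion fun b _ => isOpen_iInter_of_finite fun i => hVo b i)
    (fun b hb => mem_biUnion hb (mem_iInter.2 fun i => hVb b i))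
  have h3 : 1 < |(h ψ').1 z| := hB ψ' fun b hb => by rw [hψ'1 b hb]; simpa using hδ
  have h4 : ∀ᶠ ω in (U : Filter Ω), ∀ i, |ψ'.1 (τ ω i) - p.1 (τ ω i)| < 1 / ((m : ℝ) + 1) := by
    rw [Filter.eventually_all]
    intro i
    by_cases hi : ∀ q, ¬ Tendsto (fun ω => τ ω i) U (𝓝 q)
    · have h5 : ∀ᶠ ω in (U : Filter Ω), ∀ b ∈ B, τ ω i ∉ V b i :=
        (Filter.eventually_all_finset _).2 fun b _ => hVU b i hi
      filter_upwards [h5] with ω hω
      rw [hψ'2]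
      · simp
        positivity
      · intro hmem
        rw [mem_iUnion₂] at hmem
        obtain ⟨b, hb, hb2⟩ := hmem
        exact hω b hb (mem_iInter.1 hb2 i)
    · push Not at hi
      obtain ⟨q, hq⟩ := hi
      have h5 : Tendsto (fun ω => |ψ.1 (τ ω i) - p.1 (τ ω i)|) U (𝓝 |ψ.1 q - p.1 q|) :=
        (((ψ.2.sub p.2).abs).tendsto q).comp hq
      filter_upwards [h5.eventually_lt_const (hψ q ⟨i, hq⟩)] with ω hω
      exact (hψ'3 _).trans_lt hω
  have h5 : ∀ᶠ ω in (U : Filter Ω), |(h ψ').1 (ζ ω)| ≤ 1 := by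
    filter_upwards [hτ, h4] with ω hω1 hω2
    apply hω1 ψ'
    rintro _ ⟨i, rfl⟩
    exact hω2 i
  have h6 : Tendsto (fun ω => |(h ψ').1 (ζ ω)|) U (𝓝 |(h ψ').1 z|) :=
    (((h ψ').2.abs).tendsto z).comp hz
  exact absurd (le_of_tendsto h6 h5) (not_le.2 h3)

open Classical in
/-- The limits of the coordinates of a family of tuples (junk if there is no limit). -/
noncomputable def limTuple [Nonempty W] {Ω : Type*} {n : ℕ} (U : Ultrafilter Ω)
    (τ : Ω → Fin n → W) (i : Fin n) : W :=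
  if hi : ∃ q, Tendsto (fun ω => τ ω i) U (𝓝 q) then hi.choose else Classical.arbitrary W

theorem limTuple_spec [Nonempty W] {Ω : Type*} {n : ℕ} (U : Ultrafilter Ω)
    (τ : Ω → Fin n → W) (i : Fin n) (hi : ∃ q, Tendsto (fun ω => τ ω i) U (𝓝 q)) :
    Tendsto (fun ω => τ ω i) U (𝓝 (limTuple U τ i)) := by
  unfold limTuple
  rw [dif_pos hi]
  exact hi.choose_spec

theorem isClosed_S [T35Space W] [Nonempty W] (m n : ℕ) : IsClosed (S h p m n) := by
  classical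
  rw [isClosed_iff_ultrafilter]
  intro z U hU hS
  have h1 : ∀ z' : Z, ∃ τ : Fin n → W, z' ∈ S h p m n → Ctrl h p m z' (range τ) := by
    intro z'
    by_cases hz : z' ∈ S h p m n
    · obtain ⟨τ, hτ⟩ := hz
      exact ⟨τ, fun _ => hτ⟩
    · exact ⟨fun _ => Classical.arbitrary W, fun h => absurd h hz⟩
  choose τ hτ using h1
  have h2 := ctrl_limit h p m U (fun z' => z') τ (by filter_upwards [hS] with z' hz' using hτ z' hz')
    z hU
  refine ⟨limTuple U τ, h2.mono ?_⟩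
  rintro q ⟨i, hi⟩
  exact ⟨i, tendsto_nhds_unique (limTuple_spec U τ i ⟨q, hi⟩) hi⟩

/-- If the limit point is not controlled by fewer points, then all coordinates converge. -/
theorem ctrl_limit_tuple [T35Space W] [Nonempty W] {Ω : Type*} {k : ℕ} (m : ℕ)
    (U : Ultrafilter Ω) (ζ : Ω → Z) (τ : Ω → Fin (k + 1) → W)
    (hτ : ∀ᶠ ω in (U : Filter Ω), Ctrl h p m (ζ ω) (range (τ ω))) (z : Z)
    (hz : Tendsto ζ U (𝓝 z)) (hzk : z ∉ S h p m k) :
    (∀ i, Tendsto (fun ω => τ ω i) U (𝓝 (limTuple U τ i))) ∧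
      Ctrl h p m z (range (limTuple U τ)) := by
  have h1 := ctrl_limit h p m U ζ τ hτ z hz
  constructor
  · intro i
    apply limTuple_spec
    by_contra hi
    apply hzk
    refine ⟨fun j => limTuple U τ (i.succAbove j), h1.mono ?_⟩
    rintro q ⟨i', hi'⟩
    have hne : i' ≠ i := fun hh => hi ⟨q, hh ▸ hi'⟩
    obtain ⟨j, rfl⟩ := Fin.exists_succAbove_eq hne
    exact ⟨j, tendsto_nhds_unique (limTuple_spec U τ _ ⟨q, hi'⟩) hi'⟩
  · refine h1.mono ?_
    rintro q ⟨i, hi⟩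
    exact ⟨i, tendsto_nhds_unique (limTuple_spec U τ i ⟨q, hi⟩) hi⟩

omit [TopologicalSpace W] in
/-- A finite set of cardinality at most `k` is covered by a `k`-tuple. -/
theorem exists_tuple [Nonempty W] (A : Finset W) (k : ℕ) (hA : A.card ≤ k) :
    ∃ τ : Fin k → W, (A : Set W) ⊆ range τ := by
  classical
  refine ⟨fun i => if hi : (i : ℕ) < A.card then (A.equivFin.symm ⟨i, hi⟩).1
    else Classical.arbitrary W, ?_⟩
  intro a ha
  refine ⟨⟨(A.equivFin ⟨a, ha⟩).1, (A.equivFin ⟨a, ha⟩).2.trans_le hA⟩, ?_⟩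
  simp

theorem card_of_ctrl [Nonempty W] {m k : ℕ} {z : Z} (hzk : z ∉ S h p m k) (A : Finset W)
    (hA : Ctrl h p m z A) : k + 1 ≤ A.card := by
  by_contra hlt
  obtain ⟨τ, hτ⟩ := exists_tuple A k (by omega)
  exact hzk ⟨τ, hA.mono hτ⟩

/-- The finiteness of the family of minimal control sets. -/
theorem finite_aux [T35Space W] [Nonempty W] {m k : ℕ} {z : Z} (hzk : z ∉ S h p m k) (j : ℕ) :
    ∀ R : Finset W, R.card + j = k + 1 →
      {A : Finset W | R ⊆ A ∧ A.card = k + 1 ∧ Ctrl h p m z A}.Finite := by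
  classical
  induction j with
  | zero =>
    intro R hR
    apply (Set.finite_singleton R).subset
    rintro A ⟨h1, h2, -⟩
    exact (Finset.eq_of_subset_of_card_le h1 (by omega)).symm
  | succ j ih =>
    intro R hR
    have h1 : ¬ Ctrl h p m z R := by
      intro hc
      have := card_of_ctrl h p hzk R hc
      omega
    unfold Ctrl at h1
    push Not at h1
    obtain ⟨ψ, hψ1, hψ2⟩ := h1
    have hO : {ψ' : Cp W | 1 < |(h ψ').1 z|} ∈ 𝓝 ψ :=
      IsOpen.mem_nhds (isOpen_lt continuous_const (continuous_value h z).abs) hψ2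
    obtain ⟨B, δ, hδ, hB⟩ := cp_nhds ψ _ hO
    have h2 : {A : Finset W | R ⊆ A ∧ A.card = k + 1 ∧ Ctrl h p m z A} ⊆
        ⋃ b ∈ ((B \ R : Finset W) : Set W),
          {A : Finset W | insert b R ⊆ A ∧ A.card = k + 1 ∧ Ctrl h p m z A} := by
      rintro A ⟨hA1, hA2, hA3⟩
      by_contra hcon
      simp only [mem_iUnion, not_exists] at hcon
      have hdis : ∀ b ∈ B, b ∉ R → b ∉ A := by
        intro b hb hbR hbA
        exact hcon b (by simp [hb, hbR]) ⟨Finset.insert_subset hbA hA1, hA2, hA3⟩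
      obtain ⟨ψ', hψ'1, hψ'2, hψ'3⟩ := exists_blend ψ p (B ∪ R) ((A \ R : Finset W) : Set W)ᶜ
        (A \ R).finite_toSet.isClosed.isOpen_compl (by
          intro b hb hbA
          rw [Finset.mem_coe, Finset.mem_sdiff] at hbA
          rcases Finset.mem_union.1 hb with hb | hb
          · exact hdis b hb hbA.2 hbA.1
          · exact hbA.2 hb)
      have h3 : 1 < |(h ψ').1 z| := hB ψ' fun b hb => by
        rw [hψ'1 b (Finset.mem_union_left _ hb)]; simpa using hδ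
      have h4 : |(h ψ').1 z| ≤ 1 := by
        apply hA3 ψ'
        intro a ha
        by_cases haR : a ∈ R
        · exact (hψ'3 a).trans_lt (hψ1 a haR)
        · rw [hψ'2 a]
          · simp
            positivity
          · simp only [mem_compl_iff, not_not, Finset.mem_coe, Finset.mem_sdiff]
            exact ⟨ha, haR⟩
      linarith
    refine (Set.Finite.biUnion (Finset.finite_toSet _) ?_).subset h2
    intro b hb
    apply ih
    rw [Finset.mem_coe, Finset.mem_sdiff] at hb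
    rw [Finset.card_insert_of_notMem hb.2]
    omega

theorem finite_ctrl [T35Space W] [Nonempty W] {m k : ℕ} {z : Z} (hzk : z ∉ S h p m k) :
    {A : Finset W | A.card ≤ k + 1 ∧ Ctrl h p m z A}.Finite := by
  refine (finite_aux h p hzk (k + 1) ∅ (by simp)).subset ?_
  rintro A ⟨hA1, hA2⟩
  exact ⟨Finset.empty_subset _, le_antisymm hA1 (card_of_ctrl h p hzk A hA2), hA2⟩

/-- The converse control: a finite set of points of `Z` attached to a finite set of points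
of `W`. -/
theorem exists_finset_open [T35Space Z] (hp : ∀ z, (h p).1 z = 0) (m : ℕ) (A : Finset W) :
    ∃ E : Finset Z, ∀ O : Set Z, IsOpen O → (∀ e ∈ E, e ∈ O) →
      ∃ O' : Set W, IsOpen O' ∧ (∀ a ∈ A, a ∈ O') ∧
        ∀ (z : Z) (A₁ : Set W), Ctrl h p m z A₁ → A₁ ⊆ O' → z ∈ O := by
  have hU : {ψ : Cp W | ∀ a ∈ A, |ψ.1 a - p.1 a| < 1 / ((m : ℝ) + 1)} ∈ 𝓝 p := by
    apply (Filter.eventually_all_finset A).2
    intro a _
    apply IsOpen.mem_nhds
      (isOpen_lt ((continuous_eval a).sub continuous_const).abs continuous_const)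
    simp
    positivity
  have hU2 : h '' {ψ : Cp W | ∀ a ∈ A, |ψ.1 a - p.1 a| < 1 / ((m : ℝ) + 1)} ∈ 𝓝 (h p) :=
    h.isOpenMap.image_mem_nhds hU
  obtain ⟨E, δ, hδ, hE⟩ := cp_nhds (h p) _ hU2
  refine ⟨E, fun O hO hEO => ?_⟩
  obtain ⟨u, hu, hu0, hu1, huE, huO⟩ := exists_bump E O hO hEO
  have h1 := hE ⟨fun z => 2 * (1 - u z), continuous_const.mul (continuous_const.sub hu)⟩ (by
    intro e he
    simp [huE e he, hp, hδ])
  obtain ⟨ψ, hψ1, hψ2⟩ := h1
  refine ⟨{a | |ψ.1 a - p.1 a| < 1 / ((m : ℝ) + 1)},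
    isOpen_lt (ψ.2.sub p.2).abs continuous_const, fun a ha => hψ1 a ha, ?_⟩
  intro z A₁ hc hA₁
  by_contra hz
  have h2 := hc ψ fun a ha => hA₁ ha
  rw [hψ2] at h2
  simp only [huO z hz] at h2
  norm_num at h2

end Control

end Pool.Agent.MP_5491ed_gt
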