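import Mathlib
import Pool.Agent.Lib.MP_5491ed_gt.Defs
import Pool.Agent.Lib.MP_5491ed_gt.Basic

/-!
# `σ`-compactness is preserved by homeomorphisms of `C_p(C_p(X))`
-/

set_option autoImplicit false

namespace Pool.Agent.MP_5491ed_gt

open Set Filter Topology

/-- The tuple `τ` of functions is close to the finite set `A` of functions at the points `y`. -/
def Close {Y : Type*} [TopologicalSpace Y] {n N : ℕ} (m₁ : ℕ) (y : Fin N → Y)
    (τ : Fin n → Cp Y) (A : Finset (Cp Y)) : Prop :=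
  ∀ i, ∃ a' ∈ A, ∀ j, |(τ i).1 (y j) - a'.1 (y j)| < 1 / ((m₁ : ℝ) + 1)

theorem isOpen_close {Y : Type*} [TopologicalSpace Y] {n N : ℕ} (m₁ : ℕ)
    (τ : Fin n → Cp Y) (A : Finset (Cp Y)) : IsOpen {y : Fin N → Y | Close m₁ y τ A} := by
  have h1 : {y : Fin N → Y | Close m₁ y τ A} =
      ⋂ i, ⋃ a' ∈ A, ⋂ j, {y : Fin N → Y | |(τ i).1 (y j) - a'.1 (y j)| < 1 / ((m₁ : ℝ) + 1)} := by
    ext y
    simp only [Close, mem_ofPred_eq, mem_iInter, mem_iUnion, exists_prop]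
  rw [h1]
  refine isOpen_iInter_of_finite fun i => isOpen_biUnion fun a' _ =>
    isOpen_iInter_of_finite fun j => ?_
  exact isOpen_lt (((τ i).2.comp (continuous_apply j)).sub
    (a'.2.comp (continuous_apply j))).abs continuous_const

section Main

variable {X Y : Type*} [TopologicalSpace X] [TopologicalSpace Y]
variable (h : Cp (Cp Y) ≃ₜ Cp (Cp X)) (p : Cp (Cp Y))

/-- The relation between points of `X` and finite tuples of points of `Y`. -/
def P (m k : ℕ) (F : Set (Finset (Cp Y))) (E : Finset (Cp X)) (ε : ℝ) (m₁ N : ℕ) :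
    Set (X × (Fin N → Y)) :=
  {q | ∀ (z : Cp X) (τ : Fin k → Cp Y), Ctrl h p m z (range τ) → ∀ A ∈ F,
    Close m₁ q.2 τ A → ∃ e ∈ E, |z.1 q.1 - e.1 q.1| ≤ ε}

theorem isClosed_P (m k : ℕ) (F : Set (Finset (Cp Y))) (E : Finset (Cp X)) (ε : ℝ) (m₁ N : ℕ) :
    IsClosed (P h p m k F E ε m₁ N) := by
  unfold P
  simp only [ofPred_forall]
  refine isClosed_iInter fun z => isClosed_iInter fun τ => isClosed_iInter fun _ =>
    isClosed_iInter fun A => isClosed_iInter fun _ => ?_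
  have h1 : {q : X × (Fin N → Y) | Close m₁ q.2 τ A → ∃ e ∈ E, |z.1 q.1 - e.1 q.1| ≤ ε} =
      {q : X × (Fin N → Y) | Close m₁ q.2 τ A}ᶜ ∪
        ⋃ e ∈ E, {q : X × (Fin N → Y) | |z.1 q.1 - e.1 q.1| ≤ ε} := by
    ext q
    simp only [mem_ofPred_eq, mem_union, mem_compl_iff, mem_iUnion, exists_prop]
    tauto
  rw [h1]
  apply IsClosed.union
  · exact ((isOpen_close m₁ τ A).preimage continuous_snd).isClosed_compl
  · refine isClosed_biUnion_finset fun e _ => ?_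
    exact isClosed_le ((z.2.comp continuous_fst).sub (e.2.comp continuous_fst)).abs
      continuous_const

/-- The projections of the relations cover `X`. -/
theorem exists_mem_P [T35Space X] (hp : ∀ z, (h p).1 z = 0) (m k : ℕ)
    (F : Set (Finset (Cp Y))) (hF : F.Finite) :
    ∃ E : Finset (Cp X), ∀ ε : ℝ, 0 < ε → ∀ x : X, ∃ (m₁ N : ℕ) (y : Fin N → Y),
      (x, y) ∈ P h p m k F E ε m₁ N := by
  classical
  have h1 := fun A : Finset (Cp Y) => exists_finset_open h p hp m A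
  choose E hE using h1
  refine ⟨hF.toFinset.biUnion E, fun ε hε x => ?_⟩
  set E' := hF.toFinset.biUnion E with hE'
  have hO : IsOpen {z : Cp X | ∃ e ∈ E', |z.1 x - e.1 x| < ε} := by
    have h2 : {z : Cp X | ∃ e ∈ E', |z.1 x - e.1 x| < ε} =
        ⋃ e ∈ E', {z : Cp X | |z.1 x - e.1 x| < ε} := by
      ext z
      simp only [mem_ofPred_eq, mem_iUnion, exists_prop]
    rw [h2]
    exact isOpen_biUnion fun e _ =>
      isOpen_lt ((continuous_eval x).sub continuous_const).abs continuous_const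
  have h2 : ∀ A : Finset (Cp Y), ∃ O' : Set (Cp Y), A ∈ F → (IsOpen O' ∧ (∀ a ∈ A, a ∈ O') ∧
      ∀ (z : Cp X) (A₁ : Set (Cp Y)), Ctrl h p m z A₁ → A₁ ⊆ O' →
        ∃ e ∈ E', |z.1 x - e.1 x| < ε) := by
    intro A
    by_cases hA : A ∈ F
    · obtain ⟨O', h1, h2, h3⟩ := hE A _ hO (by
        intro e he
        refine ⟨e, ?_, by simpa using hε⟩
        rw [hE', Finset.mem_biUnion]
        exact ⟨A, hF.mem_toFinset.2 hA, he⟩)
      exact ⟨O', fun _ => ⟨h1, h2, h3⟩⟩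
    · exact ⟨univ, fun hh => absurd hh hA⟩
  choose O' hO' using h2
  have h3 : ∀ (A : Finset (Cp Y)) (a' : Cp Y), ∃ (B : Finset Y) (δ : ℝ), 0 < δ ∧
      (A ∈ F → a' ∈ A → ∀ a : Cp Y, (∀ b ∈ B, |a.1 b - a'.1 b| < δ) → a ∈ O' A) := by
    intro A a'
    by_cases hA : A ∈ F ∧ a' ∈ A
    · obtain ⟨B, δ, hδ, hB⟩ := cp_nhds a' (O' A) ((hO' A hA.1).1.mem_nhds ((hO' A hA.1).2.1 a' hA.2))
      exact ⟨B, δ, hδ, fun _ _ => hB⟩
    · exact ⟨∅, 1, one_pos, fun h1 h2 => absurd ⟨h1, h2⟩ hA⟩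
  choose B δ hδ hB using h3
  set B' : Finset Y := hF.toFinset.biUnion fun A => A.biUnion fun a' => B A a' with hB'
  have h4 : ∀ᶠ r in 𝓝[>] (0 : ℝ), ∀ A ∈ hF.toFinset, ∀ a' ∈ A, r < δ A a' :=
    (Filter.eventually_all_finset _).2 fun A _ => (Filter.eventually_all_finset _).2 fun a' _ =>
      Filter.mem_of_superset (Ioo_mem_nhdsGT (hδ A a')) fun _ hx => hx.2
  obtain ⟨r, hr, hr0⟩ := (h4.and self_mem_nhdsWithin).exists
  obtain ⟨m₁, hm₁⟩ := exists_nat_one_div_lt (show (0 : ℝ) < r from hr0)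
  refine ⟨m₁, B'.card, fun i => (B'.equivFin.symm i).1, ?_⟩
  intro z τ hc A hA hclose
  have h5 := (hO' A hA).2.2 z (range τ) hc (by
    rintro _ ⟨i, rfl⟩
    obtain ⟨a', ha', hcl⟩ := hclose i
    apply hB A a' hA ha'
    intro b hb
    have hbB : b ∈ B' := by
      rw [hB', Finset.mem_biUnion]
      exact ⟨A, hF.mem_toFinset.2 hA, Finset.mem_biUnion.2 ⟨a', ha', hb⟩⟩
    have h6 := hcl (B'.equivFin ⟨b, hbB⟩)
    simp only [Equiv.symm_apply_apply] at h6
    exact (h6.trans hm₁).trans (hr A (hF.mem_toFinset.2 hA) a' ha'))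
  obtain ⟨e, he, hlt⟩ := h5
  exact ⟨e, he, hlt.le⟩

/-- Upper semicontinuity of the control sets. -/
theorem exists_close (m k : ℕ) (g₀ : Cp X) (hg : g₀ ∉ S h p m k) (m₁ N : ℕ)
    (y : Fin N → Y) :
    ∃ (B : Finset X) (δ : ℝ), 0 < δ ∧ ∀ z : Cp X, (∀ b ∈ B, |z.1 b - g₀.1 b| < δ) →
      ∀ τ : Fin (k + 1) → Cp Y, Ctrl h p m z (range τ) →
        ∃ A : Finset (Cp Y), (A.card ≤ k + 1 ∧ Ctrl h p m g₀ A) ∧ Close m₁ y τ A := by
  classical
  have : Nonempty (Cp Y) := ⟨⟨fun _ => 0, continuous_const⟩⟩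
  let G : Set (Cp X) := {z | ∀ τ : Fin (k + 1) → Cp Y, Ctrl h p m z (range τ) →
    ∃ A : Finset (Cp Y), (A.card ≤ k + 1 ∧ Ctrl h p m g₀ A) ∧ Close m₁ y τ A}
  apply cp_nhds g₀ G
  by_contra hcon
  have h1 : g₀ ∈ closure Gᶜ := by
    rw [closure_compl, mem_compl_iff, mem_interior_iff_mem_nhds]
    exact hcon
  rw [mem_closure_iff_ultrafilter] at h1
  obtain ⟨U, hGU, hU⟩ := h1
  have h2 : ∀ z : Cp X, ∃ τ : Fin (k + 1) → Cp Y, z ∈ Gᶜ → (Ctrl h p m z (range τ) ∧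
      ∀ A : Finset (Cp Y), (A.card ≤ k + 1 ∧ Ctrl h p m g₀ A) → ¬ Close m₁ y τ A) := by
    intro z
    by_cases hz : z ∈ Gᶜ
    · have hz' : ¬ ∀ τ : Fin (k + 1) → Cp Y, Ctrl h p m z (range τ) →
        ∃ A : Finset (Cp Y), (A.card ≤ k + 1 ∧ Ctrl h p m g₀ A) ∧ Close m₁ y τ A := hz
      push Not at hz'
      obtain ⟨τ, hτ1, hτ2⟩ := hz'
      exact ⟨τ, fun _ => ⟨hτ1, hτ2⟩⟩
    · exact ⟨fun _ => Classical.arbitrary _, fun hh => absurd hh hz⟩
  choose τ hτ using h2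
  obtain ⟨h3, h4⟩ := ctrl_limit_tuple h p m U (fun z => z) τ
    (by filter_upwards [hGU] with z hz using (hτ z hz).1) g₀ hU hg
  have h5 : (Finset.univ.image (limTuple U τ)).card ≤ k + 1 ∧
      Ctrl h p m g₀ ((Finset.univ.image (limTuple U τ) : Finset (Cp Y)) : Set (Cp Y)) := by
    refine ⟨?_, ?_⟩
    · exact Finset.card_image_le.trans (by simp)
    · rw [Finset.coe_image, Finset.coe_univ, image_univ]
      exact h4
  have h6 : ∀ᶠ z in (U : Filter (Cp X)), Close m₁ y (τ z) (Finset.univ.image (limTuple U τ)) := by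
    have h7 : ∀ i j, ∀ᶠ z in (U : Filter (Cp X)),
        |(τ z i).1 (y j) - (limTuple U τ i).1 (y j)| < 1 / ((m₁ : ℝ) + 1) := by
      intro i j
      have h8 : Tendsto (fun z => |(τ z i).1 (y j) - (limTuple U τ i).1 (y j)|) U
          (𝓝 |(limTuple U τ i).1 (y j) - (limTuple U τ i).1 (y j)|) :=
        ((((continuous_eval (y j)).sub continuous_const).abs).tendsto _).comp (h3 i)
      apply h8.eventually_lt_const
      simp
      positivity
    have h9 := Filter.eventually_all.2 fun i => Filter.eventually_all.2 (h7 i)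
    filter_upwards [h9] with z hz i
    exact ⟨_, Finset.mem_image_of_mem _ (Finset.mem_univ i), hz i⟩
  have h10 := h6.and hGU
  obtain ⟨z, hz1, hz2⟩ := h10.exists
  exact (hτ z hz2).2 _ h5 hz1

/-- The projection of the relation to `Y ^ N` is perfect. -/
theorem perfect_P [T35Space X] (m k : ℕ) (g₀ : BoundedContinuousFunction X ℝ) (r : ℝ)
    (hball : ∀ g : BoundedContinuousFunction X ℝ, dist g g₀ < r →
      (⟨g, g.continuous⟩ : Cp X) ∈ S h p m (k + 1))
    (hg : (⟨g₀, g₀.continuous⟩ : Cp X) ∉ S h p m k) (E : Finset (Cp X)) (ε : ℝ) (hε : 0 < ε)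
    (hεr : 3 * ε * E.card < r) (m₁ N : ℕ) (y : Fin N → Y) (U : Ultrafilter (X × (Fin N → Y)))
    (hPU : P h p m (k + 1) {A | A.card ≤ k + 1 ∧ Ctrl h p m ⟨g₀, g₀.continuous⟩ A} E ε m₁ N ∈ U)
    (hy : Tendsto Prod.snd (U : Filter (X × (Fin N → Y))) (𝓝 y)) :
    ∃ x, Tendsto Prod.fst (U : Filter (X × (Fin N → Y))) (𝓝 x) := by
  classical
  by_contra hcon
  push Not at hcon
  obtain ⟨B, δ, hδ, hB⟩ := exists_close h p m k ⟨g₀, g₀.continuous⟩ hg m₁ N y
  -- a neighbourhood of `B` which is avoided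
  have h1 : ∀ b : X, ∃ V : Set X, IsOpen V ∧ b ∈ V ∧
      ∀ᶠ q in (U : Filter (X × (Fin N → Y))), q.1 ∉ V := by
    intro b
    have h2 := hcon b
    rw [tendsto_nhds] at h2
    push Not at h2
    obtain ⟨V, hV, hbV, hVU⟩ := h2
    exact ⟨V, hV, hbV, Ultrafilter.compl_mem_iff_notMem.2 hVU⟩
  choose V hVo hVb hVU using h1
  have hV : ∀ᶠ q in (U : Filter (X × (Fin N → Y))), q.1 ∉ ⋃ b ∈ B, V b := by
    have h2 : ∀ᶠ q in (U : Filter (X × (Fin N → Y))), ∀ b ∈ B, q.1 ∉ V b :=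
      (Filter.eventually_all_finset _).2 fun b _ => hVU b
    filter_upwards [h2] with q hq hmem
    rw [mem_iUnion₂] at hmem
    obtain ⟨b, hb, hb2⟩ := hmem
    exact hq b hb hb2
  -- a constant avoiding all `e - g₀`
  have h3 : ∃ c : ℝ, |c| < r ∧ ∀ᶠ q in (U : Filter (X × (Fin N → Y))),
      ∀ e ∈ E, ε < |g₀ q.1 + c - e.1 q.1| := by
    have h4 : ∀ q : X × (Fin N → Y), ∃ j : Fin (E.card + 1),
        ∀ e ∈ E, ε < |g₀ q.1 + 3 * ε * (j : ℕ) - e.1 q.1| := by
      intro q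
      by_contra hq
      push Not at hq
      choose e he hle using hq
      obtain ⟨i, _, j, _, hij, hEq⟩ := Finset.exists_ne_map_eq_of_card_lt_of_maps_to
        (s := (Finset.univ : Finset (Fin (E.card + 1)))) (t := E) (by simp)
        (f := e) (fun i _ => he i)
      have h5 := hle i
      have h6 := hle j
      rw [hEq] at h5
      have h7 : |3 * ε * (i : ℕ) - 3 * ε * (j : ℕ)| ≤ 2 * ε := by
        rw [abs_le] at h5 h6 ⊢
        constructor <;> linarith [h5.1, h5.2, h6.1, h6.2]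
      have h8 : (1 : ℝ) ≤ |((i : ℕ) : ℝ) - ((j : ℕ) : ℝ)| := by
        have h9 : ((i : ℕ) : ℤ) - ((j : ℕ) : ℤ) ≠ 0 := by
          intro h10
          apply hij
          apply Fin.ext
          omega
        have h10 := Int.one_le_abs h9
        exact_mod_cast h10
      have h9 : |3 * ε * (i : ℕ) - 3 * ε * (j : ℕ)| = 3 * ε * |((i : ℕ) : ℝ) - ((j : ℕ) : ℝ)| := by
        rw [← mul_sub, abs_mul, abs_of_pos (by positivity : 0 < 3 * ε)]
      rw [h9] at h7
      nlinarith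
    choose j hj using h4
    obtain ⟨j₀, hj₀⟩ : ∃ j₀ : Fin (E.card + 1), ∀ᶠ q in (U : Filter (X × (Fin N → Y))),
        j q = j₀ := by
      have h5 : ∀ᶠ q in (U : Filter (X × (Fin N → Y))), ∃ j₀ : Fin (E.card + 1), j q = j₀ :=
        Filter.Eventually.of_forall fun q => ⟨_, rfl⟩
      simpa using (Ultrafilter.eventually_exists_iff).1 h5
    refine ⟨3 * ε * (j₀ : ℕ), ?_, ?_⟩
    · rw [abs_of_nonneg (by positivity)]
      refine lt_of_le_of_lt ?_ hεr
      apply mul_le_mul_of_nonneg_left _ (by positivity)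
      exact_mod_cast Nat.lt_succ_iff.1 j₀.2
    · filter_upwards [hj₀] with q hq
      rw [← hq]
      exact hj q
  obtain ⟨c, hc, hcE⟩ := h3
  obtain ⟨u, hu, hu0, hu1, huB, huV⟩ := exists_bump B (⋃ b ∈ B, V b)
    (isOpen_biUnion fun b _ => hVo b) (fun b hb => mem_biUnion hb (hVb b))
  let w : BoundedContinuousFunction X ℝ := BoundedContinuousFunction.ofNormedAddCommGroup
    (fun x => c * (1 - u x)) (continuous_const.mul (continuous_const.sub hu)) |c| (by
      intro x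
      rw [Real.norm_eq_abs, abs_mul]
      apply mul_le_of_le_one_right (abs_nonneg _)
      rw [abs_le]
      constructor <;> linarith [hu0 x, hu1 x])
  have hw : ‖w‖ ≤ |c| := BoundedContinuousFunction.norm_ofNormedAddCommGroup_le _ (abs_nonneg _) _
  have hmem := hball (g₀ + w) (by
    rw [dist_eq_norm]
    simpa using hw.trans_lt hc)
  obtain ⟨τ, hτ⟩ := hmem
  obtain ⟨A, hA, hclose⟩ := hB _ (by
    intro b hb
    have : w b = 0 := by
      show c * (1 - u b) = 0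
      rw [huB b hb]
      ring
    simp [this, hδ]) τ hτ
  have h4 : ∀ᶠ q in (U : Filter (X × (Fin N → Y))), Close m₁ q.2 τ A :=
    hy.eventually ((isOpen_close m₁ τ A).mem_nhds hclose)
  obtain ⟨q, ⟨⟨hq1, hq2⟩, hq3⟩, hq4⟩ := (((hV.and hcE).and h4).and hPU).exists
  obtain ⟨e, he, hle⟩ := hq4 _ τ hτ A hA hq3
  have h5 := hq2 e he
  have h6 : w q.1 = c := by
    show c * (1 - u q.1) = c
    rw [huV q.1 hq1]
    ring
  have h7 : (g₀ + w) q.1 = g₀ q.1 + c := by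
    rw [BoundedContinuousFunction.coe_add, Pi.add_apply, h6]
  have hle' : |(g₀ + w) q.1 - e.1 q.1| ≤ ε := hle
  rw [h7] at hle'
  linarith

/-- The Baire category step: a ball in the space of bounded functions consisting of points
controlled by `k + 1` points, whose centre is not controlled by `k` points. -/
theorem exists_ball (hp : ∀ z, (h p).1 z = 0) :
    ∃ (m k : ℕ) (g₀ : BoundedContinuousFunction X ℝ) (r : ℝ), 0 < r ∧
      (∀ g : BoundedContinuousFunction X ℝ, dist g g₀ < r →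
        (⟨g, g.continuous⟩ : Cp X) ∈ S h p m (k + 1)) ∧
      (⟨g₀, g₀.continuous⟩ : Cp X) ∉ S h p m k := by
  classical
  have hne : Nonempty (Cp Y) := ⟨⟨fun _ => 0, continuous_const⟩⟩
  let ι : BoundedContinuousFunction X ℝ → Cp X := fun g => ⟨g, g.continuous⟩
  have hι : Continuous ι := by
    apply Continuous.subtype_mk
    exact BoundedContinuousFunction.continuous_coe
  have h1 : ∃ q : ℕ × ℕ, (interior (ι ⁻¹' S h p q.1 q.2)).Nonempty := by
    apply nonempty_interior_of_iUnion_of_closed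
    · intro q
      exact (isClosed_S h p q.1 q.2).preimage hι
    · rw [eq_univ_iff_forall]
      intro g
      obtain ⟨m, n, hmn⟩ := exists_mem_S h p hp (ι g)
      exact mem_iUnion.2 ⟨(m, n), hmn⟩
  obtain ⟨⟨m, n₀⟩, hn₀⟩ := h1
  have h2 : ∃ n, (interior (ι ⁻¹' S h p m n)).Nonempty := ⟨n₀, hn₀⟩
  obtain ⟨k, hk⟩ : ∃ k, Nat.find h2 = k + 1 := by
    rcases Nat.eq_zero_or_pos (Nat.find h2) with h0 | h0
    · exfalso
      have h3 := Nat.find_spec h2
      rw [h0] at h3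
      obtain ⟨g, hg⟩ := h3
      obtain ⟨τ, hτ⟩ := interior_subset hg
      apply not_ctrl_empty h p m (ι g)
      rwa [range_eq_empty] at hτ
    · exact ⟨Nat.find h2 - 1, by omega⟩
  have h3 : (interior (ι ⁻¹' S h p m (k + 1))).Nonempty := hk ▸ Nat.find_spec h2
  have h4 : ¬ (interior (ι ⁻¹' S h p m k)).Nonempty := Nat.find_min h2 (by omega)
  have h5 : ∃ g₀ ∈ interior (ι ⁻¹' S h p m (k + 1)), g₀ ∉ ι ⁻¹' S h p m k := by
    by_contra hcon
    push Not at hcon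
    apply h4
    obtain ⟨g, hg⟩ := h3
    exact ⟨g, interior_maximal hcon isOpen_interior hg⟩
  obtain ⟨g₀, hg₀, hg₀'⟩ := h5
  obtain ⟨r, hr, hball⟩ := Metric.isOpen_iff.1 isOpen_interior g₀ hg₀
  refine ⟨m, k, g₀, r, hr, fun g hg => ?_, hg₀'⟩
  have h6 : g ∈ ι ⁻¹' S h p m (k + 1) := interior_subset (hball hg)
  exact h6

end Main

/-- If `C_p(C_p(X))` and `C_p(C_p(Y))` are homeomorphic and `Y` is `σ`-compact, then `X` is
`σ`-compact. -/
theorem sigmaCompact_of_homeomorph {X Y : Type*} [TopologicalSpace X] [T35Space X]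
    [TopologicalSpace Y] [SigmaCompactSpace Y] (f : Cp (Cp X) ≃ₜ Cp (Cp Y)) :
    SigmaCompactSpace X := by
  classical
  set h := f.symm with hh
  let p : Cp (Cp Y) := h.symm ⟨fun _ => 0, continuous_const⟩
  have hp : ∀ z, (h p).1 z = 0 := fun z => by
    show (h (h.symm _)).1 z = 0
    rw [h.apply_symm_apply]
  have hne : Nonempty (Cp Y) := ⟨⟨fun _ => 0, continuous_const⟩⟩
  obtain ⟨m, k, g₀, r, hr, hball, hg₀⟩ := exists_ball h p hp
  set F : Set (Finset (Cp Y)) := {A | A.card ≤ k + 1 ∧ Ctrl h p m ⟨g₀, g₀.continuous⟩ A} with hFdef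
  have hF : F.Finite := finite_ctrl h p hg₀
  obtain ⟨E, hE⟩ := exists_mem_P h p hp m (k + 1) F hF
  obtain ⟨ε, hε, hεr⟩ : ∃ ε : ℝ, 0 < ε ∧ 3 * ε * E.card < r := by
    refine ⟨r / (3 * (E.card + 1)), by positivity, ?_⟩
    have hc : (0 : ℝ) ≤ E.card := Nat.cast_nonneg _
    rw [show 3 * (r / (3 * ((E.card : ℝ) + 1))) * E.card = r * (E.card / (E.card + 1)) by
      field_simp]
    have : (E.card : ℝ) / (E.card + 1) < 1 := by
      rw [div_lt_one (by linarith)]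
      linarith
    nlinarith
  have hcpt : ∀ (m₁ N j : ℕ), IsCompact (P h p m (k + 1) F E ε m₁ N ∩
      (univ ×ˢ compactCovering (Fin N → Y) j)) := by
    intro m₁ N j
    rw [isCompact_iff_ultrafilter_le_nhds']
    intro U hU
    have hPU : P h p m (k + 1) F E ε m₁ N ∈ U := Filter.mem_of_superset hU inter_subset_left
    have hKU : (Prod.snd ⁻¹' compactCovering (Fin N → Y) j : Set (X × (Fin N → Y))) ∈ U :=
      Filter.mem_of_superset hU fun q hq => hq.2.2
    obtain ⟨y, hyK, hy⟩ := (isCompact_iff_ultrafilter_le_nhds'.1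
      (isCompact_compactCovering (Fin N → Y) j)) (U.map Prod.snd) hKU
    obtain ⟨x, hx⟩ := perfect_P h p m k g₀ r hball hg₀ E ε hε hεr m₁ N y U hPU hy
    have hle : (U : Filter (X × (Fin N → Y))) ≤ 𝓝 (x, y) := by
      rw [nhds_prod_eq]
      have := hx.prodMk hy
      simpa [Tendsto] using this
    refine ⟨(x, y), ⟨?_, ⟨mem_univ _, hyK⟩⟩, hle⟩
    exact isClosed_iff_ultrafilter.1 (isClosed_P h p m (k + 1) F E ε m₁ N) _ U hle hPU
  refine ⟨?_⟩
  have hcov : (univ : Set X) = ⋃ q : ℕ × ℕ × ℕ, Prod.fst '' (P h p m (k + 1) F E ε q.1 q.2.1 ∩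
      (univ ×ˢ compactCovering (Fin q.2.1 → Y) q.2.2)) := by
    symm
    rw [eq_univ_iff_forall]
    intro x
    obtain ⟨m₁, N, y, hy⟩ := hE ε hε x
    obtain ⟨j, hj⟩ := mem_iUnion.1 ((iUnion_compactCovering (Fin N → Y)).symm ▸ mem_univ y :
      y ∈ ⋃ n, compactCovering (Fin N → Y) n)
    exact mem_iUnion.2 ⟨(m₁, N, j), ⟨(x, y), ⟨hy, ⟨mem_univ _, hj⟩⟩, rfl⟩⟩
  rw [hcov]
  apply isSigmaCompact_iUnion_of_isCompact
  intro q
  exact (hcpt q.1 q.2.1 q.2.2).image continuous_fst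

end Pool.Agent.MP_5491ed_gt
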